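import Pool.Agent.TH983.Mom2
import Pool.Agent.TH983.Hc

/-!
# Copolymer at a selective interface: moments of small order have the quenched critical curve

For `0 < θ ≤ 1/(1+α)` the exponential growth rate of the moment `E[Z_N^θ]` is positive exactly when
the quenched free energy is positive, and this happens exactly when `E[(Z^c_N)^θ] > 1` for one `N`,
where `Z^c_N` is the constrained partition function.
-/

set_option autoImplicit false
open MeasureTheory ProbabilityTheory Filter Topology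

namespace Pool.Agent.Results.MP_cceb86_pr.MomentCurve

/-- law of one (gap, sign) pair: gap with law `κ`, sign uniform on `{false, true}` -/
noncomputable def stepLaw (κ : PMF ℕ) : Measure (ℕ × Bool) :=
  κ.toMeasure.prod (PMF.uniformOfFintype Bool).toMeasure

instance instStepLaw (κ : PMF ℕ) : IsProbabilityMeasure (stepLaw κ) := by
  unfold stepLaw; infer_instance

/-- law of the i.i.d. sequence of (gap, sign) pairs -/
noncomputable def pathMeasure (κ : PMF ℕ) : Measure (ℕ → ℕ × Bool) :=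
  Measure.infinitePi (fun _ : ℕ => stepLaw κ)

instance instPathMeasure (κ : PMF ℕ) : IsProbabilityMeasure (pathMeasure κ) := by
  unfold pathMeasure; infer_instance

/-- renewal points `τ_0 = 0`, `τ_j` = sum of the first `j` gaps -/
def tau (x : ℕ → ℕ × Bool) (j : ℕ) : ℕ := ∑ i ∈ Finset.range j, (x i).1

/-- `Δ_n` = sign of the excursion `(τ_j, τ_{j+1}]` containing `n` (as a real number 0 or 1) -/
noncomputable def Delta (x : ℕ → ℕ × Bool) (n : ℕ) : ℝ :=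
  ∑ j ∈ Finset.range n, if tau x j < n ∧ n ≤ tau x (j + 1) ∧ (x j).2 = true then 1 else 0

/-- the copolymer partition function `Z_{N,ω,λ,h}` -/
noncomputable def Z (κ : PMF ℕ) (lam h : ℝ) (N : ℕ) (ω : ℕ → ℝ) : ℝ :=
  ∫ x, Real.exp (-2 * lam * ∑ n ∈ Finset.Icc 1 N, Delta x n * (ω n + h)) ∂(pathMeasure κ)

/-- i.i.d. disorder with law `ν` (the coordinates `1, 2, ...` are used) -/
noncomputable def disorder (ν : Measure ℝ) [IsProbabilityMeasure ν] : Measure (ℕ → ℝ) :=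
  Measure.infinitePi (fun _ : ℕ => ν)

instance instDisorder (ν : Measure ℝ) [IsProbabilityMeasure ν] :
    IsProbabilityMeasure (disorder ν) := by
  unfold disorder; infer_instance

/-- `N⁻¹ E log Z_N` -/
noncomputable def feN (κ : PMF ℕ) (ν : Measure ℝ) [IsProbabilityMeasure ν] (lam h : ℝ) (N : ℕ) : ℝ :=
  (N : ℝ)⁻¹ * ∫ ω, Real.log (Z κ lam h N ω) ∂(disorder ν)

/-- the free energy `f(λ,h)` -/
noncomputable def freeEnergy (κ : PMF ℕ) (ν : Measure ℝ) [IsProbabilityMeasure ν] (lam h : ℝ) : ℝ :=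
  limUnder atTop (feN κ ν lam h)

/-- the critical curve `h_c(λ) = sup {h : f(λ,h) > 0}`, supremum over all real `h` -/
noncomputable def hc (κ : PMF ℕ) (ν : Measure ℝ) [IsProbabilityMeasure ν] (lam : ℝ) : ℝ :=
  sSup {h : ℝ | 0 < freeEnergy κ ν lam h}

/-- the constrained partition function: the expectation defining `Z_N` restricted to the event
that `N` is a renewal point -/
noncomputable def Zc (κ : PMF ℕ) (lam h : ℝ) (N : ℕ) (ω : ℕ → ℝ) : ℝ :=
  ∫ x in {x | ∃ j, tau x j = N},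
    Real.exp (-2 * lam * ∑ n ∈ Finset.Icc 1 N, Delta x n * (ω n + h)) ∂(pathMeasure κ)

/-- `N⁻¹ log E[Z_N^θ]` -/
noncomputable def momN (κ : PMF ℕ) (ν : Measure ℝ) [IsProbabilityMeasure ν] (θ lam h : ℝ) (N : ℕ) :
    ℝ :=
  (N : ℝ)⁻¹ * Real.log (∫ ω, (Z κ lam h N ω) ^ θ ∂(disorder ν))

/-- the moment free energy of order `θ` -/
noncomputable def momFE (κ : PMF ℕ) (ν : Measure ℝ) [IsProbabilityMeasure ν] (θ lam h : ℝ) : ℝ :=
  limUnder atTop (momN κ ν θ lam h)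

/-- **Moments of order at most `1/(1+α)`.**  For every `λ > 0` and `0 < θ ≤ 1/(1+α)`: for `h ≥ 0` the
limits defining the free energy `f` and the moment free energy `ψ_θ` exist, `ψ_θ ≥ θ f`, `ψ_θ ≥ 0`,
and the three conditions `f(λ,h) > 0`, `ψ_θ(λ,h) > 0`, `E[(Z^c_N)^θ] > 1` for some `N ≥ 1`, are
equivalent to each other and to `h < h_c(λ)`.  Hence
`h_c(λ) = sup {h ≥ 0 : ψ_θ(λ,h) > 0} = sup {h ≥ 0 : E[(Z^c_N)^θ] > 1 for some N ≥ 1}`. -/
theorem result (κ : PMF ℕ) (hκ0 : κ 0 = 0) (α cK : ℝ) (hα : 0 < α) (hcK : 0 < cK)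
    (htail : Tendsto (fun n : ℕ => (n : ℝ) ^ (1 + α) * (κ n).toReal) atTop (𝓝 cK))
    (ν : Measure ℝ) [IsProbabilityMeasure ν]
    (hmean : ∫ x, x ∂ν = 0) (hvar : ∫ x, x ^ 2 ∂ν = 1)
    (hexp : ∀ t : ℝ, Integrable (fun x => Real.exp (t * x)) ν) :
    ∀ lam, 0 < lam → ∀ θ, 0 < θ → θ ≤ 1 / (1 + α) →
    (∀ h, 0 ≤ h →
      Tendsto (feN κ ν lam h) atTop (𝓝 (freeEnergy κ ν lam h)) ∧
      Tendsto (momN κ ν θ lam h) atTop (𝓝 (momFE κ ν θ lam h)) ∧
      0 ≤ momFE κ ν θ lam h ∧ θ * freeEnergy κ ν lam h ≤ momFE κ ν θ lam h ∧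
      (0 < freeEnergy κ ν lam h ↔ h < hc κ ν lam) ∧
      (0 < momFE κ ν θ lam h ↔ h < hc κ ν lam) ∧
      ((∃ N : ℕ, 1 ≤ N ∧ 1 < ∫ ω, (Zc κ lam h N ω) ^ θ ∂(disorder ν)) ↔ h < hc κ ν lam)) ∧
    0 < hc κ ν lam ∧
    sSup {h : ℝ | 0 ≤ h ∧ 0 < momFE κ ν θ lam h} = hc κ ν lam ∧
    sSup {h : ℝ | 0 ≤ h ∧ ∃ N : ℕ, 1 ≤ N ∧ 1 < ∫ ω, (Zc κ lam h N ω) ^ θ ∂(disorder ν)} =
      hc κ ν lam := by
  intro lam hlam θ hθ hθ1
  obtain ⟨D, hD⟩ : ∃ D : Cop764.Data, D =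
    ⟨κ, hκ0, α, cK, hα, hcK, htail, ν, inferInstance, hmean, hvar, hexp, lam, hlam⟩ := ⟨_, rfl⟩
  have hθ2 : θ ≤ (1 + D.α)⁻¹ := by rw [hD, ← one_div]; exact hθ1
  have hdat : 0 < Pool.Agent.TH983.hcr κ ν lam ∧
      ∀ h, 0 ≤ h → (0 < freeEnergy κ ν lam h ↔ h < Pool.Agent.TH983.hcr κ ν lam) := by
    have := Pool.Agent.TH983.hcr_char D
    rw [hD] at this
    exact this
  have heq : hc κ ν lam = Pool.Agent.TH983.hcr κ ν lam := by
    obtain ⟨h1, h2⟩ := hdat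
    have hub : ∀ h ∈ {h : ℝ | 0 < freeEnergy κ ν lam h}, h ≤ Pool.Agent.TH983.hcr κ ν lam := by
      intro h hh
      rcases lt_or_ge h 0 with h0 | h0
      · linarith
      · exact ((h2 h h0).1 hh).le
    have hsub : Set.Ico 0 (Pool.Agent.TH983.hcr κ ν lam) ⊆ {h : ℝ | 0 < freeEnergy κ ν lam h} :=
      fun h hh => (h2 h hh.1).2 hh.2
    refine le_antisymm (csSup_le ⟨0, hsub ⟨le_rfl, h1⟩⟩ hub) ?_
    have h3 := csSup_le_csSup ⟨_, hub⟩ (Set.nonempty_Ico.2 h1) hsub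
    rwa [csSup_Ico h1] at h3
  rw [← heq] at hdat
  have hZc : ∀ (h : ℝ) (N : ℕ) (ω : ℕ → ℝ), Zc κ lam h N ω =
      Cop764.G D.K (D.w h ω) 0 N := by
    intro h N ω
    have h1 := Pool.Agent.TH983.Zcw_eq κ hκ0 N (D.w h ω)
    have h2 : Cop764.G D.K (D.w h ω) 0 N =
        Cop764.G (fun n => (κ n).toReal) (D.w h ω) 0 N := by
      rw [hD]
      rfl
    rw [h2, ← h1]
    have hms : MeasurableSet {x : ℕ → ℕ × Bool | ∃ j, tau x j = N} :=
      Pool.Agent.TH983.renAt_meas N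
    unfold Zc Pool.Agent.TH983.Zcw Pool.Agent.TH983.Pc
    rw [← integral_indicator hms]
    change (∫ x, ({x : ℕ → ℕ × Bool | ∃ j, tau x j = N}).indicator (fun x =>
      Real.exp (-2 * lam * ∑ n ∈ Finset.Icc 1 N, Delta x n * (ω n + h))) x
      ∂(Cop764.pathMeasure κ)) = _
    refine integral_congr_ae (Filter.Eventually.of_forall fun x => ?_)
    have h3 : Real.exp (-2 * lam * ∑ n ∈ Finset.Icc 1 N, Delta x n * (ω n + h)) =
        Cop764.M_rec.Ph (D.w h ω) N x := by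
      unfold Cop764.M_rec.Ph Cop764.Data.w
      rw [hD, Finset.mul_sum]
      congr 1
      refine Finset.sum_congr rfl fun n _ => ?_
      show -2 * lam * (Delta x n * (ω n + h)) = Cop764.Delta x n * (-2 * lam * (ω n + h))
      have : Delta x n = Cop764.Delta x n := rfl
      rw [this]
      ring
    by_cases hx : x ∈ Pool.Agent.TH983.renAt N
    · rw [Set.indicator_of_mem hx, Set.indicator_of_mem (show x ∈ {x | ∃ j, tau x j = N} from hx),
        h3]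
    · rw [Set.indicator_of_notMem hx,
        Set.indicator_of_notMem (show x ∉ {x | ∃ j, tau x j = N} from hx)]
  have hmain : ∀ h, 0 ≤ h →
      Tendsto (feN κ ν lam h) atTop (𝓝 (freeEnergy κ ν lam h)) ∧
      Tendsto (momN κ ν θ lam h) atTop (𝓝 (momFE κ ν θ lam h)) ∧
      0 ≤ momFE κ ν θ lam h ∧ θ * freeEnergy κ ν lam h ≤ momFE κ ν θ lam h ∧
      (0 < freeEnergy κ ν lam h ↔ h < hc κ ν lam) ∧
      (0 < momFE κ ν θ lam h ↔ h < hc κ ν lam) ∧
      ((∃ N : ℕ, 1 ≤ N ∧ 1 < ∫ ω, (Zc κ lam h N ω) ^ θ ∂(disorder ν)) ↔ h < hc κ ν lam) := by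
    intro h h0
    have hf1 : Tendsto (feN κ ν lam h) atTop (𝓝 (freeEnergy κ ν lam h)) := by
      have := (Cop764.M_fe.J_fe D h h0).1
      rw [hD] at this
      exact this
    obtain ⟨ψ, hψ1, hψ2, hψ3, hψ4⟩ := Pool.Agent.TH983.mom_main D h0 hθ hθ2
    have hψ1' : Tendsto (momN κ ν θ lam h) atTop (𝓝 ψ) := by
      rw [hD] at hψ1
      exact hψ1
    have hψ2' : θ * freeEnergy κ ν lam h ≤ ψ := by
      rw [hD] at hψ2
      exact hψ2
    have hψ4' : 0 < ψ ↔ 0 < freeEnergy κ ν lam h := by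
      rw [hD] at hψ4
      exact hψ4
    have hm : momFE κ ν θ lam h = ψ := hψ1'.limUnder_eq
    have hiff := hdat.2 h h0
    have hN : (∃ N : ℕ, 1 ≤ N ∧ 1 < ∫ ω, (Zc κ lam h N ω) ^ θ ∂(disorder ν)) ↔
        0 < freeEnergy κ ν lam h := by
      have h2 := Pool.Agent.TH983.frac_iff' D h0 hθ hθ2
      have e1 : D.f h = freeEnergy κ ν lam h := by rw [hD]; rfl
      have e2 : D.P = disorder ν := by rw [hD]; rfl
      simp only [hZc]
      rw [← e1, h2, e2]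
    rw [hm]
    exact ⟨hf1, hψ1', hψ3, hψ2', hiff, hψ4'.trans hiff, hN.trans hiff⟩
  have hset : ∀ p : ℝ → Prop, (∀ h, 0 ≤ h → (p h ↔ h < hc κ ν lam)) →
      sSup {h : ℝ | 0 ≤ h ∧ p h} = hc κ ν lam := by
    intro p hp
    have : {h : ℝ | 0 ≤ h ∧ p h} = Set.Ico 0 (hc κ ν lam) := by
      ext h
      constructor
      · intro hh
        exact ⟨hh.1, (hp h hh.1).1 hh.2⟩
      · intro hh
        exact ⟨hh.1, (hp h hh.1).2 hh.2⟩
    rw [this, csSup_Ico hdat.1]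
  refine ⟨hmain, hdat.1, hset _ fun h h0 => (hmain h h0).2.2.2.2.2.1,
    hset _ fun h h0 => (hmain h h0).2.2.2.2.2.2⟩

end Pool.Agent.Results.MP_cceb86_pr.MomentCurve
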